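import Pool.Agent.Lib.MP_a55e6f_al.Uni.Basic
import Pool.Agent.Lib.MP_a55e6f_al.Uni.Interfaces

/-!
# Module PB: the PBW theorem and the top parts of `E b`
-/

set_option autoImplicit false

universe u

open MvPolynomial

attribute [local instance 100] LieRing.ofAssociativeRing

namespace Pool.Agent.A55u.H14

/-! ## Degree filtration -/

section dg
variable {k σ : Type u} [Field k]

/-- Polynomials of total degree `< n`. -/
def Dg (k : Type u) {σ : Type u} [Field k] (n : ℕ) : Submodule k (MvPolynomial σ k) where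
  carrier := {f | ∀ m, f.coeff m ≠ 0 → m.degree < n}
  add_mem' := by
    intro f g hf hg m hm
    by_contra hne
    have h1 : f.coeff m = 0 := by
      by_contra h; exact hne (hf m h)
    have h2 : g.coeff m = 0 := by
      by_contra h; exact hne (hg m h)
    exact hm (by simp [h1, h2])
  zero_mem' := by intro m hm; simp at hm
  smul_mem' := by
    intro c f hf m hm
    refine hf m fun h => hm ?_
    simp [h]

theorem mem_Dg {n : ℕ} {f : MvPolynomial σ k} :
    f ∈ Dg k n ↔ ∀ m, f.coeff m ≠ 0 → m.degree < n := Iff.rfl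

theorem Dg_mono {m n : ℕ} (h : m ≤ n) : (Dg k m : Submodule k (MvPolynomial σ k)) ≤ Dg k n :=
  fun _ hf _ hm => lt_of_lt_of_le (hf _ hm) h

theorem coeff_eq_zero_of_Dg {n : ℕ} {f : MvPolynomial σ k} (hf : f ∈ Dg k n) {m : σ →₀ ℕ}
    (h : n ≤ m.degree) : f.coeff m = 0 := by
  by_contra hne
  exact absurd (hf m hne) (not_lt.2 h)

theorem mem_Dg_iff_totalDegree {n : ℕ} {f : MvPolynomial σ k} :
    f ∈ Dg k (n + 1) ↔ f.totalDegree ≤ n := by
  constructor
  · intro h
    unfold MvPolynomial.totalDegree
    refine Finset.sup_le fun m hm => ?_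
    exact Nat.lt_succ_iff.1 (h m (MvPolynomial.mem_support_iff.1 hm))
  · intro h m hm
    have h1 : m.sum (fun _ e => e) ≤ f.totalDegree :=
      le_totalDegree (MvPolynomial.mem_support_iff.2 hm)
    exact Nat.lt_succ_iff.2 (le_trans h1 h)

theorem monomial_mem_Dg {m : σ →₀ ℕ} {n : ℕ} (h : m.degree < n) (c : k) :
    monomial m c ∈ Dg k n := by
  classical
  intro m' hm'
  rw [coeff_monomial] at hm'
  split_ifs at hm' with h1
  · rw [← h1]; exact h
  · exact absurd rfl hm'

theorem mul_mem_Dg {a b : ℕ} {f g : MvPolynomial σ k} (hf : f ∈ Dg k (a + 1)) (hg : g ∈ Dg k b) :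
    f * g ∈ Dg k (a + b) := by
  classical
  intro m hm
  rw [coeff_mul] at hm
  obtain ⟨p, hp, hne⟩ := Finset.exists_ne_zero_of_sum_ne_zero hm
  have h1 := hf p.1 (left_ne_zero_of_mul hne)
  have h2 := hg p.2 (right_ne_zero_of_mul hne)
  rw [← Finset.HasAntidiagonal.mem_antidiagonal.1 hp, map_add]
  omega

theorem one_mem_Dg {n : ℕ} : (1 : MvPolynomial σ k) ∈ Dg k (n + 1) := by
  have := monomial_mem_Dg (k := k) (m := (0 : σ →₀ ℕ)) (n := n + 1) (by simp) 1
  simpa using this

theorem X_mem_Dg (i : σ) : (X i : MvPolynomial σ k) ∈ Dg k 2 :=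
  monomial_mem_Dg (by simp) 1

theorem prod_mem_Dg {ι : Type*} (s : Finset ι) (f : ι → MvPolynomial σ k) (a : ι → ℕ)
    (h : ∀ i ∈ s, f i ∈ Dg k (a i + 1)) : ∏ i ∈ s, f i ∈ Dg k (∑ i ∈ s, a i + 1) := by
  classical
  induction s using Finset.induction_on with
  | empty => simpa using one_mem_Dg (k := k) (σ := σ) (n := 0)
  | insert i s hi ih =>
    rw [Finset.prod_insert hi, Finset.sum_insert hi]
    have h1 := mul_mem_Dg (h i (Finset.mem_insert_self _ _))
      (ih fun j hj => h j (Finset.mem_insert_of_mem hj))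
    rwa [← add_assoc] at h1

theorem pow_mem_Dg {f : MvPolynomial σ k} (h : f ∈ Dg k 2) (n : ℕ) : f ^ n ∈ Dg k (n + 1) := by
  have := prod_mem_Dg (Finset.range n) (fun _ => f) (fun _ => 1) (fun _ _ => h)
  simpa using this

/-- an induction principle: a linear map sends `Dg n` into a submodule if it does so for the
monomials. -/
theorem Dg_induction {N : Type u} [AddCommGroup N] [Module k N] {n : ℕ}
    (T : MvPolynomial σ k →ₗ[k] N) (S : Submodule k N)
    (h : ∀ m : σ →₀ ℕ, m.degree < n → T (monomial m 1) ∈ S) {f : MvPolynomial σ k}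
    (hf : f ∈ Dg k n) : T f ∈ S := by
  rw [f.as_sum, map_sum]
  refine Submodule.sum_mem _ fun m hm => ?_
  have h1 : monomial m (f.coeff m) = f.coeff m • (monomial m 1 : MvPolynomial σ k) := by
    rw [smul_monomial, smul_eq_mul, mul_one]
  rw [h1, map_smul]
  exact Submodule.smul_mem _ _ (h m (hf m (MvPolynomial.mem_support_iff.1 hm)))

/-- a derivation whose values on the letters are linear preserves the degree -/
theorem der_mem_Dg {d : σ → MvPolynomial σ k} (hd : ∀ i, d i ∈ Dg k 2) {n : ℕ}
    {f : MvPolynomial σ k} (hf : f ∈ Dg k n) : mkDerivation k d f ∈ Dg k n := by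
  refine Dg_induction (mkDerivation k d).toLinearMap (Dg k n) (fun m hm => ?_) hf
  change mkDerivation k d (monomial m 1) ∈ Dg k n
  rw [mkDerivation_monomial]
  refine Submodule.smul_mem _ _ ?_
  refine Submodule.sum_mem _ fun i hi => ?_
  change monomial (m - Finsupp.single i 1) ((m i : ℕ) : k) • d i ∈ Dg k n
  rw [smul_eq_mul]
  have hmi : m i ≠ 0 := Finsupp.mem_support_iff.1 hi
  have h1 : (m - Finsupp.single i 1).degree + 1 = m.degree := by
    have : m - Finsupp.single i 1 + Finsupp.single i 1 = m := by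
      apply tsub_add_cancel_of_le
      rw [Finsupp.single_le_iff]
      exact Nat.one_le_iff_ne_zero.2 hmi
    conv_rhs => rw [← this]
    simp
  have h2 : (monomial (m - Finsupp.single i 1) ((m i : ℕ) : k) : MvPolynomial σ k)
      ∈ Dg k ((m - Finsupp.single i 1).degree + 1) := monomial_mem_Dg (Nat.lt_succ_self _) _
  refine Dg_mono ?_ (mul_mem_Dg h2 (hd i))
  omega

/-- substitution of linear polynomials -/
theorem aeval_mem_Dg {τ : Type u} {φ : σ → MvPolynomial τ k} (hφ : ∀ i, φ i ∈ Dg k 2) {n : ℕ}
    {f : MvPolynomial σ k} (hf : f ∈ Dg k n) : aeval φ f ∈ Dg k n := by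
  refine Dg_induction (aeval φ).toLinearMap (Dg k n) (fun m hm => ?_) hf
  change aeval φ (monomial m 1) ∈ Dg k n
  rw [aeval_monomial, map_one, one_mul]
  unfold Finsupp.prod
  refine Dg_mono ?_ (prod_mem_Dg m.support _ m (fun i _ => pow_mem_Dg (hφ i) (m i)))
  have : ∑ i ∈ m.support, m i = m.degree := rfl
  omega

end dg

/-! ## `E` of products of elements of `G` -/

section rep
variable {k M : Type u} [Field k] [Monoid M]

omit [Monoid M] in
theorem iota_mem_Dg (b : MonoidAlgebra k M) : (iota b : MvPolynomial M k) ∈ Dg k 2 := by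
  intro m hm
  obtain ⟨w, rfl, _⟩ := iota_coeff_ne_zero hm
  simp

omit [Monoid M] in
theorem mkDer_iota (d : M → MvPolynomial M k) (b : MonoidAlgebra k M) :
    mkDerivation k d (iota b) = b.coeff.sum fun w c => c • d w := by
  induction b using MonoidAlgebra.induction_linear with
  | zero => simp
  | add a b ha hb =>
    rw [map_add, map_add, ha, hb, MonoidAlgebra.coeff_add]
    exact (Finsupp.sum_add_index' (by simp) (by intro w c e; rw [add_smul])).symm
  | single v c =>
    rw [iota_single, Derivation.map_smul, mkDerivation_X]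
    simp

theorem Pi_iota_mem_Dg (b : MonoidAlgebra k M) {n : ℕ} {f : MvPolynomial M k}
    (hf : f ∈ Dg k n) : Pi (iota b) f ∈ Dg k n := by
  unfold Pi
  refine der_mem_Dg (fun w' => ?_) hf
  rw [mkDer_iota]
  unfold Finsupp.sum
  exact Submodule.sum_mem _ fun w _ => Submodule.smul_mem _ _ (X_mem_Dg _)

omit [Monoid M] in
theorem kap_zero (m : M →₀ ℕ) : kap (fun _ => 0) m = (m.degree : ℚ) := by
  have h : m.degree = ∑ i ∈ m.support, m i := rfl
  unfold kap
  rw [h]
  simp [Finsupp.sum]

theorem E_mul_mem {G : LieSubalgebra k (MonoidAlgebra k M)}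
    {E : MonoidAlgebra k M →ₗ[k] MvPolynomial M k} (hE : IsRep G E) {g : MonoidAlgebra k M}
    (hg : g ∈ G) {n : ℕ} {b' : MonoidAlgebra k M} (hb : E b' ∈ Dg k (n + 1)) :
    E (g * b') - iota g * E b' ∈ Dg k (n + 1) := by
  have hadd : IsAdd (fun _ : M => (0 : ℚ)) := ⟨rfl, fun _ _ => by simp⟩
  have h1 := hE.mul (fun _ => 0) hadd 1 n g b' ?_ ?_
  · rw [hE.mem g hg] at h1
    have h2 : E (g * b') - iota g * E b' - Pi (iota g) (E b') ∈ Dg k (n + 1) := by
      intro m hm
      have h3 := h1 m hm
      change kap (fun _ => 0) m ≤ _ at h3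
      rw [kap_zero] at h3
      have h4 : (m.degree : ℚ) < (n + 1 : ℕ) := by push_cast; linarith
      exact_mod_cast h4
    have h5 := Submodule.add_mem _ h2 (Pi_iota_mem_Dg g hb)
    simpa using h5
  · rw [hE.mem g hg]
    intro m hm
    change kap (fun _ => 0) m ≤ _
    rw [kap_zero]
    have := iota_mem_Dg g m hm
    have h4 : m.degree ≤ 1 := by omega
    exact_mod_cast h4
  · intro m hm
    change kap (fun _ => 0) m ≤ _
    rw [kap_zero]
    have := hb m hm
    have h4 : m.degree ≤ n := by omega
    exact_mod_cast h4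

omit [Monoid M] in
theorem list_prod_Dg (l : List (MonoidAlgebra k M)) :
    ((l.map iota).prod : MvPolynomial M k) ∈ Dg k (l.length + 1) := by
  induction l with
  | nil => simpa using one_mem_Dg (k := k) (σ := M) (n := 0)
  | cons g l ih =>
    rw [List.map_cons, List.prod_cons, List.length_cons]
    have := mul_mem_Dg (iota_mem_Dg g) ih
    refine Dg_mono ?_ this
    omega

theorem E_list {G : LieSubalgebra k (MonoidAlgebra k M)}
    {E : MonoidAlgebra k M →ₗ[k] MvPolynomial M k} (hE : IsRep G E)
    (l : List (MonoidAlgebra k M)) (hl : ∀ g ∈ l, g ∈ G) :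
    E l.prod - (l.map iota).prod ∈ Dg k l.length := by
  induction l with
  | nil => simp [hE.one]
  | cons g l ih =>
    have ih1 := ih fun h hh => hl h (List.mem_cons_of_mem _ hh)
    have h1 : E l.prod ∈ Dg k (l.length + 1) := by
      have := Submodule.add_mem _ (Dg_mono (Nat.le_succ _) ih1) (list_prod_Dg l)
      simpa using this
    have h2 := E_mul_mem hE (hl g (by simp)) h1
    have h3 : iota g * (E l.prod - (l.map iota).prod) ∈ Dg k (1 + l.length) :=
      mul_mem_Dg (iota_mem_Dg g) ih1
    rw [List.map_cons, List.prod_cons, List.prod_cons, List.length_cons]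
    rw [add_comm 1] at h3
    have h4 := Submodule.add_mem _ h2 h3
    rw [mul_sub] at h4
    simpa using h4

omit [Monoid M] in
theorem iota_isHomogeneous (b : MonoidAlgebra k M) :
    (iota b : MvPolynomial M k).IsHomogeneous 1 := by
  intro m hm
  obtain ⟨w, rfl, _⟩ := iota_coeff_ne_zero hm
  simp [Finsupp.weight_single]

omit [Monoid M] in
theorem list_isHomogeneous (l : List (MonoidAlgebra k M)) :
    ((l.map iota).prod : MvPolynomial M k).IsHomogeneous l.length := by
  induction l with
  | nil => simpa using isHomogeneous_one M k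
  | cons g l ih =>
    rw [List.map_cons, List.prod_cons, List.length_cons, add_comm]
    exact (iota_isHomogeneous g).mul ih

theorem homogeneousComponent_eq_zero_of_Dg {σ : Type u} {n : ℕ} {f : MvPolynomial σ k}
    (hf : f ∈ Dg k n) : homogeneousComponent n f = 0 := by
  ext d
  rw [coeff_homogeneousComponent, coeff_zero]
  split_ifs with h
  · exact coeff_eq_zero_of_Dg hf h.ge
  · rfl

/-! ### Sorted monomials -/

section mono
variable {J : Type u} [LinearOrder J]

theorem E_mono {G : LieSubalgebra k (MonoidAlgebra k M)}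
    {E : MonoidAlgebra k M →ₗ[k] MvPolynomial M k} (hE : IsRep G E) (x : J → MonoidAlgebra k M)
    (hx : ∀ j, x j ∈ G) (s : Multiset J) :
    E (mono x s) - (((s.sort (· ≤ ·)).map x).map iota).prod ∈ Dg k (Multiset.card s) := by
  have h := E_list hE ((s.sort (· ≤ ·)).map x) (by
    intro g hg
    obtain ⟨j, _, rfl⟩ := List.mem_map.1 hg
    exact hx j)
  rwa [List.length_map, Multiset.length_sort] at h

theorem list_X_prod (l : List J) : ((l.map X).prod : MvPolynomial J k)
    = monomial (Multiset.toFinsupp (l : Multiset J)) 1 := by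
  induction l with
  | nil => simp
  | cons j l ih =>
    rw [List.map_cons, List.prod_cons, ih, ← Multiset.cons_coe, ← Multiset.singleton_add, map_add,
      Multiset.toFinsupp_singleton, X, monomial_mul, one_mul]

theorem degree_toFinsupp (s : Multiset J) : (Multiset.toFinsupp s).degree = Multiset.card s := by
  induction s using Multiset.induction_on with
  | empty => simp
  | cons a s ih =>
    rw [← Multiset.singleton_add, map_add, map_add, Multiset.toFinsupp_singleton, ih,
      Multiset.card_add]
    simp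

theorem key (x : J → MonoidAlgebra k M) (Ψ : MonoidAlgebra k M →ₗ[k] MvPolynomial J k)
    (h : ∀ s : Multiset J,
      Ψ (mono x s) - monomial (Multiset.toFinsupp s) 1 ∈ Dg k (Multiset.card s))
    (c : Multiset J →₀ k) (s0 : Multiset J)
    (hs0 : ∀ s ∈ c.support, Multiset.card s ≤ Multiset.card s0) :
    (Ψ (c.sum fun s r => r • mono x s)).coeff (Multiset.toFinsupp s0) = c s0 := by
  classical
  unfold Finsupp.sum
  rw [map_sum, coeff_sum]
  have h1 : ∀ s ∈ c.support, (Ψ (c s • mono x s)).coeff (Multiset.toFinsupp s0)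
      = if s = s0 then c s0 else 0 := by
    intro s hs
    rw [map_smul, coeff_smul]
    have h2 : (Ψ (mono x s)).coeff (Multiset.toFinsupp s0)
        = (Ψ (mono x s) - monomial (Multiset.toFinsupp s) 1).coeff (Multiset.toFinsupp s0)
          + (monomial (Multiset.toFinsupp s) (1 : k)).coeff (Multiset.toFinsupp s0) := by
      rw [← coeff_add, sub_add_cancel]
    rw [h2, coeff_eq_zero_of_Dg (h s) (by rw [degree_toFinsupp]; exact hs0 s hs), zero_add,
      coeff_monomial]
    by_cases h3 : s = s0
    · subst h3; simp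
    · rw [if_neg h3, if_neg, smul_zero]
      intro h4
      exact h3 (Multiset.toFinsupp.injective h4)
  rw [Finset.sum_congr rfl h1, Finset.sum_ite_eq']
  split_ifs with h2
  · rfl
  · exact (Finsupp.notMem_support_iff.1 h2).symm

omit [LinearOrder J] in
/-- the substitution `iota (b j) ↦ X j` -/
theorem exists_subst (x : J → MonoidAlgebra k M) (hx : LinearIndependent k x) :
    ∃ Φ : MvPolynomial M k →ₐ[k] MvPolynomial J k, (∀ j, Φ (iota (x j)) = X j) ∧
      ∀ (n : ℕ) (f : MvPolynomial M k), f ∈ Dg k n → Φ f ∈ Dg k n := by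
  classical
  obtain ⟨g, hg⟩ := (Finsupp.linearCombination k x).exists_leftInverse_of_injective
    (LinearMap.ker_eq_bot.2 hx)
  have hg1 : ∀ j, g (x j) = Finsupp.single j 1 := by
    intro j
    have := LinearMap.congr_fun hg (Finsupp.single j 1)
    simpa using this
  let lin : (J →₀ k) →ₗ[k] MvPolynomial J k := Finsupp.linearCombination k X
  have hlin : ∀ v, lin v ∈ Dg k 2 := by
    intro v
    change Finsupp.linearCombination k X v ∈ Dg k 2
    rw [Finsupp.linearCombination_apply]
    unfold Finsupp.sum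
    exact Submodule.sum_mem _ fun j _ => Submodule.smul_mem _ _ (X_mem_Dg j)
  let Φ : MvPolynomial M k →ₐ[k] MvPolynomial J k :=
    aeval fun w => lin (g (MonoidAlgebra.single w 1))
  have hΦ : ∀ b : MonoidAlgebra k M, Φ (iota b) = lin (g b) := by
    intro b
    induction b using MonoidAlgebra.induction_linear with
    | zero => simp
    | add a b ha hb => rw [map_add, map_add, ha, hb, map_add, map_add]
    | single v c =>
      rw [iota_single, map_smul, aeval_X]
      have : (MonoidAlgebra.single v c : MonoidAlgebra k M) = c • MonoidAlgebra.single v 1 := by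
        rw [MonoidAlgebra.smul_single, smul_eq_mul, mul_one]
      rw [this, map_smul, map_smul]
  refine ⟨Φ, fun j => ?_, fun n f hf => aeval_mem_Dg (fun w => hlin _) hf⟩
  rw [hΦ, hg1]
  change Finsupp.linearCombination k X (Finsupp.single j 1) = X j
  simp

theorem key_hyp {G : LieSubalgebra k (MonoidAlgebra k M)}
    {E : MonoidAlgebra k M →ₗ[k] MvPolynomial M k} (hE : IsRep G E) (x : J → MonoidAlgebra k M)
    (hx : ∀ j, x j ∈ G) {Φ : MvPolynomial M k →ₐ[k] MvPolynomial J k}
    (h1 : ∀ j, Φ (iota (x j)) = X j)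
    (h2 : ∀ (n : ℕ) (f : MvPolynomial M k), f ∈ Dg k n → Φ f ∈ Dg k n) (s : Multiset J) :
    (Φ.toLinearMap.comp E) (mono x s) - monomial (Multiset.toFinsupp s) 1
      ∈ Dg k (Multiset.card s) := by
  have h := h2 _ _ (E_mono hE x hx s)
  rw [map_sub, map_list_prod, List.map_map, List.map_map] at h
  have h3 : ((⇑Φ ∘ ⇑iota) ∘ x) = (X : J → MvPolynomial J k) := by
    ext j : 1
    exact h1 j
  rw [h3, list_X_prod, Multiset.sort_eq] at h
  exact h

end mono

theorem comm_mem {G : LieSubalgebra k (MonoidAlgebra k M)} {J : Type u}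
    (b : Module.Basis J k G) (i j : J) :
    (b i : MonoidAlgebra k M) * (b j : MonoidAlgebra k M)
      - (b j : MonoidAlgebra k M) * (b i : MonoidAlgebra k M)
      ∈ Submodule.span k (Set.range fun j => (b j : MonoidAlgebra k M)) := by
  have h1 : ((⁅b i, b j⁆ : G) : MonoidAlgebra k M) = (b i : MonoidAlgebra k M) * (b j : MonoidAlgebra k M)
      - (b j : MonoidAlgebra k M) * (b i : MonoidAlgebra k M) := by
    rw [LieSubalgebra.coe_bracket, LieRing.of_associative_ring_bracket]
  rw [← h1]
  have h2 : (⁅b i, b j⁆ : G) ∈ Submodule.span k (Set.range b) := by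
    rw [b.span_eq]; trivial
  have h3 := Submodule.mem_map_of_mem (f := G.toSubmodule.subtype) h2
  rw [Submodule.map_span, ← Set.range_comp] at h3
  exact h3

theorem span_basis {G : LieSubalgebra k (MonoidAlgebra k M)} {J : Type u}
    (b : Module.Basis J k G) {g : MonoidAlgebra k M} (hg : g ∈ G) :
    g ∈ Submodule.span k (Set.range fun j => (b j : MonoidAlgebra k M)) := by
  have h2 : (⟨g, hg⟩ : G) ∈ Submodule.span k (Set.range b) := by
    rw [b.span_eq]; trivial
  have h3 := Submodule.mem_map_of_mem (f := G.toSubmodule.subtype) h2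
  rw [Submodule.map_span, ← Set.range_comp] at h3
  exact h3

end rep

theorem pbw (hR : RepStatement.{u}) (hS : SpanStatement.{u}) : PBWStatement.{u} := by
  classical
  intro k M _ _ G hG J _ b
  obtain ⟨E, hE⟩ := hR k M G hG
  have hx : LinearIndependent k (fun j => (b j : MonoidAlgebra k M)) :=
    b.linearIndependent.map' G.toSubmodule.subtype (Submodule.ker_subtype _)
  obtain ⟨Φ, h1, h2⟩ := exists_subst _ hx
  have hkey := key_hyp hE (fun j => (b j : MonoidAlgebra k M)) (fun j => (b j).2) h1 h2
  constructor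
  · rw [linearIndependent_iff]
    intro c hc
    rw [Finsupp.linearCombination_apply] at hc
    by_contra hne
    have hne' : c.support.Nonempty := Finsupp.support_nonempty_iff.2 hne
    obtain ⟨s0, hs0, hmax⟩ := Finset.exists_max_image c.support Multiset.card hne'
    have h3 := key _ _ hkey c s0 hmax
    rw [hc, map_zero, coeff_zero] at h3
    exact (Finsupp.mem_support_iff.1 hs0) h3.symm
  · rw [hS k _ J _ (comm_mem b)]
    have h3 : Algebra.adjoin k (Set.range fun j => (b j : MonoidAlgebra k M)) = ⊤ := by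
      rw [eq_top_iff, ← hG.gen]
      apply Algebra.adjoin_le
      intro g hg
      have := span_basis b hg
      exact (Submodule.span_le.2 (Algebra.subset_adjoin (R := k))
        : _ ≤ Subalgebra.toSubmodule (Algebra.adjoin k _)) this
    rw [h3]
    exact Algebra.top_toSubmodule

theorem top (hR : RepStatement.{u}) (hS : SpanStatement.{u}) : TopStatement.{u} := by
  classical
  intro k M _ _ G hG E hE n b hb
  let bas := Module.Basis.ofVectorSpace k G
  letI : LinearOrder (Module.Basis.ofVectorSpaceIndex k G) :=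
    linearOrderOfSTO WellOrderingRel
  let x : Module.Basis.ofVectorSpaceIndex k G → MonoidAlgebra k M := fun j => (bas j : MonoidAlgebra k M)
  have hx : LinearIndependent k x :=
    bas.linearIndependent.map' G.toSubmodule.subtype (Submodule.ker_subtype _)
  obtain ⟨Φ, h1, h2⟩ := exists_subst _ hx
  have hkey := key_hyp hE x (fun j => (bas j).2) h1 h2
  have hb' : E b ∈ Dg k (n + 1) := mem_Dg_iff_totalDegree.2 hb
  have hspan := (pbw hR hS k M G hG _ bas).2
  have hmem : b ∈ Submodule.span k (Set.range fun s => mono x s) := by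
    rw [hspan]; trivial
  obtain ⟨c, rfl⟩ := Finsupp.mem_span_range_iff_exists_finsupp.1 hmem
  have hcard : ∀ s ∈ c.support, Multiset.card s ≤ n := by
    by_contra hne
    push Not at hne
    obtain ⟨s1, hs1, hlt⟩ := hne
    obtain ⟨s0, hs0, hmax⟩ := Finset.exists_max_image c.support Multiset.card ⟨s1, hs1⟩
    have h3 := key _ _ hkey c s0 hmax
    have h4 : (Φ.toLinearMap.comp E) (c.sum fun s r => r • mono x s) ∈ Dg k (n + 1) :=
      h2 _ _ hb'
    rw [coeff_eq_zero_of_Dg h4] at h3
    · exact (Finsupp.mem_support_iff.1 hs0) h3.symm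
    · rw [degree_toFinsupp]
      have := hmax s1 hs1
      omega
  unfold Finsupp.sum
  rw [map_sum, map_sum]
  refine Subalgebra.sum_mem _ fun s hs => ?_
  rw [map_smul, map_smul]
  refine Subalgebra.smul_mem _ ?_ _
  have h5 := E_mono hE x (fun j => (bas j).2) s
  have h6 := homogeneousComponent_eq_zero_of_Dg (Dg_mono (hcard s hs) h5)
  rw [map_sub, sub_eq_zero] at h6
  rw [h6, homogeneousComponent_of_mem (list_isHomogeneous _)]
  split_ifs with h7
  · refine Subalgebra.list_prod_mem _ ?_
    intro g hg
    rw [List.map_map, List.mem_map] at hg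
    obtain ⟨j, _, rfl⟩ := hg
    exact Algebra.subset_adjoin ⟨_, (bas j).2, rfl⟩
  · exact Subalgebra.zero_mem _

end Pool.Agent.A55u.H14
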